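import Pool.Agent.W133.DQ.StF
import Pool.Agent.W133.DQ.StC

/-!
# Project DQ, part FK2: elements tangent to the identity along the boundary
-/

set_option autoImplicit false

open scoped ContDiff
open Set Filter Topology

namespace Pool.Agent.W924.DQ

open Pool.Agent.W133.DQ

theorem near (hP : S_PEXT) {a : Equiv.Perm HH} (ha : a ∈ BB) {δ : ℝ} (hδ : 0 < δ) :
    ∃ δ' : ℝ, 0 < δ' ∧ ∀ z : HH, -δ' < z.1.2 → -δ < (a z).1.2 := by
  obtain ⟨F, hF, hFa, hF1⟩ := hP a ha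
  have hbd : ∀ x : ℝ, (F (x, 0)).2 = 0 := by
    intro x
    have h1 : (a (bp x)).1.2 = 0 := (ha.2.2.2.1 (bp x)).1 rfl
    rw [hFa] at h1
    exact h1
  have hcont : Continuous (fun q : ℝ × ℝ => (F (q.2, q.1)).2) :=
    continuous_snd.comp (hF.continuous.comp (continuous_snd.prodMk continuous_fst))
  have h2 : ∀ᶠ t in 𝓝 (0:ℝ), ∀ x ∈ Icc (0:ℝ) 1, -δ < (F (x, t)).2 := by
    refine isCompact_Icc.eventually_forall_of_forall_eventually ?_
    intro x _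
    have h3 : -δ < (fun q : ℝ × ℝ => (F (q.2, q.1)).2) (0, x) := by
      simp only [hbd]
      linarith
    exact hcont.continuousAt.eventually (lt_mem_nhds h3)
  rw [Metric.eventually_nhds_iff] at h2
  obtain ⟨δ', hδ', h2⟩ := h2
  refine ⟨δ', hδ', ?_⟩
  rintro ⟨⟨x, t⟩, ht⟩ hz
  have hper : Function.Periodic (fun x : ℝ => (F (x, t)).2) 1 := by
    intro x
    have := hF1 (x, t)
    simp only at this
    simp only [this, Prod.snd_add, add_zero]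
  obtain ⟨y, hy, hxy⟩ := hper.exists_mem_Ico₀ one_pos x
  rw [hFa]
  rw [hxy]
  refine h2 ?_ y ⟨hy.1, hy.2.le⟩
  simp only at hz ht
  rw [Real.dist_eq, sub_zero, abs_of_nonpos ht]
  linarith

/-- Identity near the boundary line. -/
def NN : Subgroup (Equiv.Perm HH) where
  carrier := {f | f ∈ BB ∧ ∃ ε : ℝ, 0 < ε ∧ ∀ p : HH, -ε < p.1.2 → f p = p}
  mul_mem' := by
    rintro f g ⟨hf, ε, hε, h1⟩ ⟨hg, ε', hε', h2⟩
    refine ⟨BB.mul_mem hf hg, min ε ε', lt_min hε hε', fun p hp => ?_⟩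
    have e1 := min_le_left ε ε'
    have e2 := min_le_right ε ε'
    rw [Equiv.Perm.mul_apply, h2 p (by linarith), h1 p (by linarith)]
  one_mem' := ⟨BB.one_mem, 1, one_pos, fun _ _ => rfl⟩
  inv_mem' := by
    rintro f ⟨hf, ε, hε, h1⟩
    exact ⟨BB.inv_mem hf, ε, hε, fun p hp => by rw [Equiv.Perm.inv_eq_iff_eq, h1 p hp]⟩

theorem mem_NN {f : Equiv.Perm HH} :
    f ∈ NN ↔ f ∈ BB ∧ ∃ ε : ℝ, 0 < ε ∧ ∀ p : HH, -ε < p.1.2 → f p = p := Iff.rfl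

theorem NN_normal (hP : S_PEXT) : ∀ a ∈ BB, ∀ n ∈ NN, a * n * a⁻¹ ∈ NN := by
  rintro a ha n ⟨hn, ε, hε, h1⟩
  obtain ⟨δ, hδ, h2⟩ := near hP (BB.inv_mem ha) hε
  refine ⟨BB.mul_mem (BB.mul_mem ha hn) (BB.inv_mem ha), δ, hδ, fun p hp => ?_⟩
  rw [Equiv.Perm.mul_apply, Equiv.Perm.mul_apply, h1 _ (h2 p hp)]
  exact a.apply_symm_apply p

theorem NN_zero {ν : Equiv.Perm HH → ℝ} (h0 : ∀ f ∈ BB0, ν f = 0) : ∀ n ∈ NN, ν n = 0 := by
  rintro n ⟨hn, ε, hε, h1⟩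
  refine h0 n ⟨hn, 0, ε, hε, fun p hp => ?_⟩
  rw [h1 p hp]
  simp

theorem hasDeriv2 {F : P2 → P2} (hF : ContDiff ℝ ∞ F) (x : ℝ) :
    HasDerivAt (fun t : ℝ => F (x, t)) (fderiv ℝ F (x, 0) (0, 1)) 0 := by
  have h2 : HasFDerivAt F (fderiv ℝ F (x, 0)) (x, 0) :=
    (hF.differentiable (by simp) _).hasFDerivAt
  have h3 : HasDerivAt (fun t : ℝ => ((x, t) : P2)) ((0:ℝ), (1:ℝ)) 0 :=
    (hasDerivAt_const 0 x).prodMk (hasDerivAt_id 0)
  exact h2.comp_hasDerivAt (0:ℝ) h3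

theorem hasDeriv1 {F : P2 → P2} (hF : ContDiff ℝ ∞ F) (x : ℝ) :
    HasDerivAt (fun t : ℝ => F (t, 0)) (fderiv ℝ F (x, 0) (1, 0)) x := by
  have h2 : HasFDerivAt F (fderiv ℝ F (x, 0)) (x, 0) :=
    (hF.differentiable (by simp) _).hasFDerivAt
  have h3 : HasDerivAt (fun t : ℝ => ((t, 0) : P2)) ((1:ℝ), (0:ℝ)) x :=
    (hasDerivAt_id x).prodMk (hasDerivAt_const x 0)
  exact h2.comp_hasDerivAt x h3

theorem fd_eq {F F' : P2 → P2} (hF : ContDiff ℝ ∞ F) (hF' : ContDiff ℝ ∞ F')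
    (h : ∀ p : HH, F p = F' p) (x : ℝ) :
    fderiv ℝ F (x, 0) (0, 1) = fderiv ℝ F' (x, 0) (0, 1) := by
  have h1 := (hasDeriv2 hF x).hasDerivWithinAt (s := Iic 0)
  have h2 := ((hasDeriv2 hF' x).hasDerivWithinAt (s := Iic 0)).congr
    (f₁ := fun t : ℝ => F (x, t)) (fun t ht => h ⟨(x, t), ht⟩) (h ⟨(x, 0), le_refl 0⟩)
  exact (uniqueDiffWithinAt_Iic (0:ℝ)).eq_deriv _ h1 h2

theorem fd_tan {F : P2 → P2} (hF : ContDiff ℝ ∞ F) (h : ∀ x : ℝ, F (x, 0) = (x, 0)) (x : ℝ) :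
    fderiv ℝ F (x, 0) (1, 0) = (1, 0) := by
  have h1 := hasDeriv1 hF x
  have h3 : HasDerivAt (fun t : ℝ => F (t, 0)) ((1:ℝ), (0:ℝ)) x := by
    have h4 : (fun t : ℝ => F (t, 0)) = (fun t : ℝ => ((t, 0) : P2)) := funext h
    rw [h4]
    exact (hasDerivAt_id x).prodMk (hasDerivAt_const x 0)
  exact h1.unique h3

/-- The elements of `BB` tangent to the identity along the boundary. -/
def TT (g : Equiv.Perm HH) : Prop :=
  g ∈ BB ∧ (∀ x, g (bp x) = bp x) ∧ ND g (fun _ => 1)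

theorem TT.one : TT 1 := by
  refine ⟨BB.one_mem, fun _ => rfl, id, contDiff_id, fun _ => rfl, fun x => ?_⟩
  rw [fderiv_id]
  rfl

theorem TT.mul {f g : Equiv.Perm HH} (hf : TT f) (hg : TT g) : TT (f * g) := by
  obtain ⟨hf1, hf2, F, hF, hFf, hF1⟩ := hf
  obtain ⟨hg1, hg2, G, hG, hGg, hG1⟩ := hg
  refine ⟨BB.mul_mem hf1 hg1, fun x => ?_, F ∘ G, hF.comp hG, fun p => ?_, fun x => ?_⟩
  · rw [Equiv.Perm.mul_apply, hg2, hf2]
  · rw [Equiv.Perm.mul_apply, hFf, hGg]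
    rfl
  · have hFx : ∀ x : ℝ, F (x, 0) = (x, 0) := by
      intro x
      have := hFf (bp x)
      rw [hf2] at this
      exact this.symm
    have hGx : G (x, 0) = (x, 0) := by
      have := hGg (bp x)
      rw [hg2] at this
      exact this.symm
    rw [fderiv_comp _ (hF.differentiable (by simp) _) (hG.differentiable (by simp) _), hGx,
      ContinuousLinearMap.comp_apply]
    have hG1x := hG1 x
    generalize fderiv ℝ G (x, 0) (0, 1) = v at hG1x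
    have hv : v = v.1 • ((1, 0) : P2) + (0, 1) := by
      ext
      · simp
      · simpa using hG1x
    rw [hv, map_add, map_smul, fd_tan hF hFx, Prod.snd_add, hF1]
    simp

theorem TT.pow {f : Equiv.Perm HH} (hf : TT f) (j : ℕ) : TT (f ^ j) := by
  induction j with
  | zero => rw [pow_zero]; exact TT.one
  | succ j ih => rw [pow_succ]; exact ih.mul hf

theorem conj_C (hEXTB : S_EXTB) (hP : S_PEXT) (hSTB : S_STB) {C : Equiv.Perm HH} (hC : C ∈ BB)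
    (hC' : ∃ ε : ℝ, 0 < ε ∧ ∀ p : HH, -ε < p.1.2 → (C p : P2) = (p.1.1, p.1.2 / 2))
    {g : Equiv.Perm HH} (hg : TT g) :
    ∃ M ∈ BB, M * (C * g) * M⁻¹ * C⁻¹ ∈ NN := by
  obtain ⟨hg1, hg2, F', hF', hF'g, hF'1⟩ := hg
  obtain ⟨F, hF, hFg, hFe⟩ := hP g hg1
  have hFx : ∀ x : ℝ, F (x, 0) = (x, 0) := by
    intro x
    have := hFg (bp x)
    rw [hg2] at this
    exact this.symm
  have hFn : ∀ x : ℝ, (fderiv ℝ F (x, 0) (0, 1)).2 = 1 := by
    intro x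
    rw [fd_eq hF hF' (fun p => by rw [← hFg, ← hF'g]) x]
    exact hF'1 x
  obtain ⟨η, h, hη, hh1, hh2, hh3, hh4, hh5⟩ := hSTB (fun p => ((F p).1, (F p).2 / 2))
    ((contDiff_fst.comp hF).prodMk ((contDiff_snd.comp hF).div_const 2))
    (fun p => by
      rw [hFe]
      ext
      · simp
      · simp)
    (fun x => by
      rw [hFx]
      simp)
    (fun x => by
      have h1 := hasDeriv2 hF x
      have h2 : HasDerivAt (fun t : ℝ => (F (x, t)).2 / 2)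
          ((fderiv ℝ F (x, 0) (0, 1)).2 / 2) 0 := by
        have h3 : HasDerivAt (fun t : ℝ => (F (x, t)).2) ((fderiv ℝ F (x, 0) (0, 1)).2) 0 := h1.snd
        exact h3.div_const 2
      have h4 : HasDerivAt (fun t : ℝ => (F (x, t)).2 / 2)
          (fderiv ℝ (fun p => ((F p).1, (F p).2 / 2)) (x, 0) (0, 1)).2 0 :=
        (hasDeriv2 (F := fun p => ((F p).1, (F p).2 / 2))
          ((contDiff_fst.comp hF).prodMk ((contDiff_snd.comp hF).div_const 2)) x).snd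
      have h5 := h4.unique h2
      rw [h5, hFn])
  obtain ⟨M, hM, ε, hε, hεη, hMh⟩ := hEXTB h η hη hh1 hh2 hh3 hh4
  obtain ⟨ε', hε', hC2⟩ := hC'
  have hCi := BB.inv_mem hC
  have hMi := BB.inv_mem hM
  refine ⟨M, hM, ?_⟩
  obtain ⟨δ1, hδ1, h1⟩ := near hP hCi hε'
  obtain ⟨δ2, hδ2, h2⟩ := near hP (BB.mul_mem hMi hCi) hε
  obtain ⟨δ3, hδ3, h3⟩ := near hP (BB.mul_mem hg1 (BB.mul_mem hMi hCi)) hε'
  obtain ⟨δ4, hδ4, h4⟩ := near hP (BB.mul_mem hC (BB.mul_mem hg1 (BB.mul_mem hMi hCi))) hε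
  refine ⟨BB.mul_mem (BB.mul_mem (BB.mul_mem hM (BB.mul_mem hC hg1)) hMi) hCi,
    min (min δ1 δ2) (min δ3 δ4), lt_min (lt_min hδ1 hδ2) (lt_min hδ3 hδ4), fun z hz => ?_⟩
  have e1 : min (min δ1 δ2) (min δ3 δ4) ≤ δ1 := (min_le_left _ _).trans (min_le_left _ _)
  have e2 : min (min δ1 δ2) (min δ3 δ4) ≤ δ2 := (min_le_left _ _).trans (min_le_right _ _)
  have e3 : min (min δ1 δ2) (min δ3 δ4) ≤ δ3 := (min_le_right _ _).trans (min_le_left _ _)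
  have e4 : min (min δ1 δ2) (min δ3 δ4) ≤ δ4 := (min_le_right _ _).trans (min_le_right _ _)
  have k1 := h1 z (by linarith)
  have k2 := h2 z (by linarith)
  have k3 := h3 z (by linarith)
  have k4 := h4 z (by linarith)
  simp only [Equiv.Perm.mul_apply] at k1 k2 k3 k4 ⊢
  obtain ⟨q, hq⟩ : ∃ q, C⁻¹ z = q := ⟨_, rfl⟩
  rw [hq] at k1 k2 k3 k4 ⊢
  obtain ⟨p, hp⟩ : ∃ p, M⁻¹ q = p := ⟨_, rfl⟩
  rw [hp] at k2 k3 k4 ⊢
  have hzq : z = C q := by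
    rw [← hq]
    exact (C.apply_symm_apply z).symm
  have hqp : q = M p := by
    rw [← hp]
    exact (M.apply_symm_apply q).symm
  have hpη : |p.1.2| < η := by
    rw [abs_of_nonpos p.2]
    linarith
  apply Subtype.ext
  rw [hMh _ k4, hC2 _ k3, hFg, (hh5 p.1 hpη).2, hzq, hC2 q k1, hqp, hMh p k2]

theorem FK2 (hSCAL : S_SCAL) (hEXTB : S_EXTB) (hPEXT : S_PEXT) (hSTB : S_STB) (hA1 : S_A1)
    (hA3 : S_A3) : S_FK2 := by
  intro ν hν h0 f hf hf1 hf2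
  obtain ⟨S, hS, -⟩ := hSCAL
  obtain ⟨hC, ε, hε, hC'⟩ := hS (fun _ => -Real.log 2) contDiff_const (fun _ => rfl)
  have hC2 : ∃ ε : ℝ, 0 < ε ∧ ∀ p : HH, -ε < p.1.2 →
      (S (fun _ => -Real.log 2) p : P2) = (p.1.1, p.1.2 / 2) := by
    refine ⟨ε, hε, fun p hp => ?_⟩
    rw [hC' p hp, Real.exp_neg, Real.exp_log (by norm_num)]
    ext
    · rfl
    · simp only
      ring
  generalize S (fun _ => -Real.log 2) = C at hC hC2
  obtain ⟨a1, -, -, -, -⟩ := hA1 (Equiv.Perm HH) BB ν hν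
  have a3 := hA3 (Equiv.Perm HH) BB NN ν hν (fun _ h => h.1) (NN_normal hPEXT) (NN_zero h0)
  have key : ∀ g, TT g → ν (C * g) = ν C := by
    intro g hg
    obtain ⟨M, hM, hn⟩ := conj_C hEXTB hPEXT hSTB hC hC2 hg
    have h1 := a1 (C * g) (BB.mul_mem hC hg.1) M hM
    have h2 := (a3 C hC _ hn).2
    rw [← h1, ← h2]
    congr 1
    group
  obtain ⟨⟨D, hD⟩, hpow⟩ := hν
  have hfT : TT f := ⟨hf, hf1, hf2⟩
  have hb : ∀ j : ℕ, (j : ℝ) * |ν f| ≤ D := by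
    intro j
    have h1 := hD C hC (f ^ j) (BB.pow_mem hf j)
    rw [key _ (hfT.pow j)] at h1
    have h2 := hpow f hf (j : ℤ)
    rw [zpow_natCast, Int.cast_natCast] at h2
    rw [h2, sub_self, zero_sub, abs_neg, abs_mul, Nat.abs_cast] at h1
    exact h1
  by_contra hne
  have hpos : 0 < |ν f| := abs_pos.2 hne
  obtain ⟨j, hj⟩ := exists_nat_gt (D / |ν f|)
  rw [div_lt_iff₀ hpos] at hj
  exact absurd (hb j) (not_le.2 hj)

end Pool.Agent.W924.DQ
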